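import Pool.Agent.KS7_39.LS.Dom

set_option autoImplicit false

/-!
# Local supporting hyperplanes and `ℂ`-convexity: failure in a robust form

For every `n ≥ 2` there is a bounded domain `D` of `ℂⁿ` such that the set `Γ_z(D)` of the complex
hyperplanes through `z` which miss `D` near `z` is connected (and nonempty) for every boundary point
`z`, although

* all the complex lines of a nonempty open set of complex lines meet `D` in infinitely many pieces;
* all the points of a nonempty relatively open set of boundary points lie on no complex hyperplane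
  that misses `D`, so that `D` is not even weakly linearly convex.

`D` is the set of the points whose first coordinate `x` is in a planar domain `Y` and whose other
coordinates have modulus less than `G(x)`. To `Y` there belong infinitely many tentacles,
accumulating at a corner, in which `G` climbs from `1` to a higher level; the lines `{w = const}`
with the constant slightly larger than `1` meet `D` only over the tentacles.
-/

open Set Filter Topology Metric Pool.Agent.KS7_39.LS Pool.Agent.KS7_39.LSDom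

namespace Pool.Agent.Results.MP_e79ea5_an.InfinitelyManyPieces

variable {n : ℕ}

/-- positive values occur only in the bands -/
lemma val_pos_band {x : ℂ} {a : ℝ} (h : Val x a) (ha : 0 < a) :
    ∃ k, 1000 * e k < x.im ∧ x.im < 1200 * e k := by
  rcases h with h | ⟨k, i, hz, hb⟩
  · rcases h with ⟨_, h1, h2⟩ | ⟨k, _, h⟩ | ⟨k, _, h⟩
    · exact absurd ha (lt_irrefl _)
    · have := P_im h
      have := e_pos k
      exact ⟨k, by linarith, by linarith⟩
    · have := Q_im h
      have := e_pos k
      exact ⟨k, by linarith, by linarith⟩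
  · have := SB_im (phi_mem_SB (k := k) (i := i) hz)
    have := e_pos k
    exact ⟨k, by linarith, by linarith⟩

/-- a point near the top of the `k`-th tentacle -/
noncomputable def pk (k : ℕ) : ℂ := ⟨126 * e k, 1150 * e k⟩

lemma pk_Q (k : ℕ) : pk k ∈ Q k := by
  have := e_pos k
  refine ⟨?_, ?_, ?_, ?_⟩ <;> simp only [pk] <;> linarith

lemma pk_val (k : ℕ) : ∃ a, Val (pk k) a ∧ 9 / 10 ≤ a := by
  refine ⟨_, Val.base (Base.ver k _ (pk_Q k)), ?_⟩
  have h1 : f k (pk k) = 465 / 4 * e k := by
    simp only [f, pk]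
    ring
  rw [h1, c_mul]
  have h2 : 0 ≤ (1 / 2 : ℝ) ^ k := by positivity
  linarith

lemma infinite_components {S : Set (Fin n → ℂ)} (o : Fin n)
    (hband : ∀ y ∈ S, ∃ k, 1000 * e k < (y o).im ∧ (y o).im < 1200 * e k)
    (hpk : ∀ k, ∃ y ∈ S, y o = pk k) : Infinite (ConnectedComponents ↥S) := by
  choose p hpS hpo using hpk
  set g : ℕ → ConnectedComponents ↥S := fun k => ((⟨p k, hpS k⟩ : ↥S) : ConnectedComponents ↥S)
    with hg
  have key : ∀ j k, j < k → g j ≠ g k := by
    intro j k hjk heq
    have h1 : (⟨p k, hpS k⟩ : ↥S) ∈ connectedComponent (⟨p j, hpS j⟩ : ↥S) :=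
      ConnectedComponents.coe_eq_coe'.1 heq.symm
    have hcont : Continuous (fun y : ↥S => (y.1 o).im) :=
      Complex.continuous_im.comp ((continuous_apply o).comp continuous_subtype_val)
    have himg := (isPreconnected_connectedComponent (x := (⟨p j, hpS j⟩ : ↥S))).image _
      hcont.continuousOn
    have hj : (p j o).im = 1150 * e j := by rw [hpo]; rfl
    have hk : (p k o).im = 1150 * e k := by rw [hpo]; rfl
    have he := e_lt hjk
    have hej := e_pos j
    obtain ⟨y, -, hy⟩ := himg.Icc_subset ⟨_, h1, rfl⟩ ⟨_, mem_connectedComponent, rfl⟩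
      (show 500 * e j ∈ Icc (p k o).im (p j o).im by
        rw [hj, hk]
        constructor <;> linarith)
    obtain ⟨l, hl1, hl2⟩ := hband y.1 y.2
    simp only at hy
    rw [hy] at hl1 hl2
    rcases lt_trichotomy j l with h | h | h
    · have := e_lt h
      linarith
    · subst h
      linarith
    · have := e_lt h
      have := e_pos l
      linarith
  have hinj : Function.Injective g := by
    intro j k hjk
    rcases lt_trichotomy j k with h | h | h
    · exact absurd hjk (key j k h)
    · exact h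
    · exact absurd hjk.symm (key k j h)
  exact Infinite.of_injective g hinj

lemma norm_W {x : ℂ} (h : x ∈ W) : ‖x‖ ≤ 2 := by
  obtain ⟨h1, h2, h3, h4⟩ := h
  refine (Complex.norm_le_abs_re_add_abs_im _).trans ?_
  have e1 := abs_le.2 ⟨h1.le, h2.le⟩
  have e2 := abs_le.2 ⟨h3.le, h4.le⟩
  linarith

/-- All the lines near the line `{(t, 201/200, 0, …, 0)}` meet the domain in infinitely many
pieces. -/
theorem open_set_of_lines {o j1 : Fin n} (hne : j1 ≠ o) :
    ∃ A B : Fin n → ℂ, ∃ ε : ℝ, 0 < ε ∧ ∀ A' B' : Fin n → ℂ, ‖A' - A‖ < ε → ‖B' - B‖ < ε →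
      B' ≠ 0 ∧ Infinite (ConnectedComponents ↥(Dn o ∩ {y | ∃ t : ℂ, y = A' + t • B'})) := by
  set w : ℂ := ((201 / 200 : ℝ) : ℂ) with hw
  refine ⟨Pi.single j1 w, Pi.single o 1, 1 / 10000, by norm_num, ?_⟩
  intro A' B' hA hB
  have hwn : ‖w‖ = 201 / 200 := by
    rw [hw, Complex.norm_real, Real.norm_of_nonneg (by norm_num)]
  have hA1 : ‖A' j1 - w‖ < 1 / 10000 := by
    have := (norm_le_pi_norm (A' - Pi.single j1 w) j1).trans_lt hA
    simpa using this
  have hA2 : ∀ j, j ≠ j1 → ‖A' j‖ < 1 / 10000 := by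
    intro j hj
    have := (norm_le_pi_norm (A' - Pi.single j1 w) j).trans_lt hA
    simpa [Pi.single_eq_of_ne hj] using this
  have hB1 : ‖B' o - 1‖ < 1 / 10000 := by
    have := (norm_le_pi_norm (B' - Pi.single o 1) o).trans_lt hB
    simpa using this
  have hB2 : ∀ j, j ≠ o → ‖B' j‖ < 1 / 10000 := by
    intro j hj
    have := (norm_le_pi_norm (B' - Pi.single o 1) j).trans_lt hB
    simpa [Pi.single_eq_of_ne hj] using this
  have hBo : 9999 / 10000 ≤ ‖B' o‖ := by
    have h1 : (1 : ℝ) ≤ ‖B' o‖ + ‖B' o - 1‖ := by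
      have : (1 : ℂ) = B' o - (B' o - 1) := by ring
      calc (1 : ℝ) = ‖(1 : ℂ)‖ := by simp
        _ = ‖B' o - (B' o - 1)‖ := by rw [← this]
        _ ≤ _ := norm_sub_le _ _
    linarith
  have hBo0 : B' o ≠ 0 := by
    intro h
    rw [h, norm_zero] at hBo
    linarith
  -- bound for the parameter
  have ht : ∀ t : ℂ, ‖(A' + t • B') o‖ ≤ 2 → ‖t‖ ≤ 3 := by
    intro t h
    have h1 : t * B' o = (A' + t • B') o - A' o := by
      simp only [Pi.add_apply, Pi.smul_apply, smul_eq_mul]
      ring
    have h2 : ‖t‖ * ‖B' o‖ ≤ 2 + 1 / 10000 := by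
      rw [← norm_mul, h1]
      refine (norm_sub_le _ _).trans ?_
      have := hA2 o hne.symm
      linarith
    have h3 : ‖t‖ * (9999 / 10000) ≤ ‖t‖ * ‖B' o‖ :=
      mul_le_mul_of_nonneg_left hBo (norm_nonneg _)
    linarith
  have hco : ∀ (t : ℂ) (j : Fin n), (A' + t • B') j = A' j + t * B' j := fun t j => rfl
  have hoth : ∀ t : ℂ, ‖t‖ ≤ 3 → ∀ j, j ≠ o → ‖t * B' j‖ ≤ 3 / 10000 := by
    intro t h j hj
    rw [norm_mul]
    calc ‖t‖ * ‖B' j‖ ≤ 3 * (1 / 10000) := by
          have := (hB2 j hj).le
          gcongr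
      _ = _ := by norm_num
  have hj1 : ∀ t : ℂ, ‖t‖ ≤ 3 → ‖(A' + t • B') j1‖ ≤ 201 / 200 + 4 / 10000 ∧
      201 / 200 - 4 / 10000 ≤ ‖(A' + t • B') j1‖ := by
    intro t h
    rw [hco]
    have h1 := hoth t h j1 hne
    have h2 : A' j1 + t * B' j1 = w + ((A' j1 - w) + t * B' j1) := by ring
    have h3 : ‖(A' j1 - w) + t * B' j1‖ ≤ 4 / 10000 :=
      (norm_add_le _ _).trans (by linarith)
    constructor
    · rw [h2]
      refine (norm_add_le _ _).trans ?_
      linarith
    · have h4 : w = (A' j1 + t * B' j1) - ((A' j1 - w) + t * B' j1) := by ring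
      have h5 : ‖w‖ ≤ ‖A' j1 + t * B' j1‖ + ‖(A' j1 - w) + t * B' j1‖ := by
        conv_lhs => rw [h4]
        exact norm_sub_le _ _
      linarith
  have hall : ∀ t : ℂ, ‖t‖ ≤ 3 → ∀ j, j ≠ o → ‖(A' + t • B') j‖ ≤ 201 / 200 + 4 / 10000 := by
    intro t h j hj
    by_cases hjj : j = j1
    · rw [hjj]
      exact (hj1 t h).1
    · rw [hco]
      refine (norm_add_le _ _).trans ?_
      have h1 := hoth t h j hj
      have h2 := hA2 j hjj
      linarith
  refine ⟨fun h => hBo0 (by rw [h]; rfl), ?_⟩
  apply infinite_components o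
  · rintro y ⟨⟨a, ha, hj⟩, t, rfl⟩
    have h1 := ht t (norm_W (val_W ha))
    have h2 := (hj1 t h1).2
    have h3 := hj j1 hne
    exact val_pos_band ha (by linarith)
  · intro k
    obtain ⟨a, ha, ha2⟩ := pk_val k
    set t : ℂ := (pk k - A' o) / B' o with htd
    have hto : (A' + t • B') o = pk k := by
      rw [hco, htd]
      field_simp
      ring
    refine ⟨A' + t • B', ⟨⟨a, by rw [hto]; exact ha, fun j hj => ?_⟩, t, rfl⟩, hto⟩
    have h1 := ht t (by rw [hto]; exact norm_W (val_W ha))
    have h2 := hall t h1 j hj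
    linarith

/-- No complex hyperplane through a boundary point near `(q₀, 1, 0, …, 0)` misses the domain. -/
theorem not_weakly_linearly_convex {o j1 : Fin n} (hne : j1 ≠ o) :
    ∃ z₀ ∈ frontier (Dn o), ∃ ε : ℝ, 0 < ε ∧ ∀ z ∈ frontier (Dn o), ‖z - z₀‖ < ε →
      ∀ p : Projectivization ℂ (Fin n → ℂ), (hyperplane z p ∩ Dn o).Nonempty := by
  set z₀ : Fin n → ℂ := Pi.single o q0 + Pi.single j1 1 with hz₀
  have z0o : z₀ o = q0 := by simp [hz₀, hne.symm]
  have z0j : z₀ j1 = 1 := by simp [hz₀, hne]
  have z0r : ∀ j, j ≠ o → j ≠ j1 → z₀ j = 0 := by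
    intro j h1 h2
    simp [hz₀, h1, h2]
  -- the value near `q0`
  have hnear : ∀ x : ℂ, ‖x - q0‖ < 1 / 5 → x ∈ W ∧ x ∈ M := by
    intro x hx
    have h1 := (Complex.abs_re_le_norm (x - q0)).trans_lt hx
    have h2 := (Complex.abs_im_le_norm (x - q0)).trans_lt hx
    rw [abs_lt] at h1 h2
    simp only [Complex.sub_re, Complex.sub_im, q0] at h1 h2
    refine ⟨⟨?_, ?_, ?_, ?_⟩, Or.inl ?_⟩ <;> linarith [h1.1, h1.2, h2.1, h2.2]
  have hmem : ∀ y : Fin n → ℂ, ‖y o - q0‖ < 1 / 5 → (y ∈ Dn o ↔ ∀ j, j ≠ o → ‖y j‖ < 1) := by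
    intro y hy
    obtain ⟨hW, hM⟩ := hnear _ hy
    constructor
    · rintro ⟨a, ha, hj⟩ j hjo
      have h1 := hj j hjo
      rw [val_main ha hM] at h1
      linarith
    · intro h
      refine ⟨0, Val.base (Base.main _ hW hM), fun j hj => ?_⟩
      have := h j hj
      linarith
  have hfront : z₀ ∈ frontier (Dn o) := by
    rw [(isOpen_Dn o).frontier_eq]
    constructor
    · rw [Metric.mem_closure_iff]
      intro δ hδ
      set s : ℝ := min (δ / 2) (1 / 2) with hs
      have hs0 : 0 < s := by rw [hs]; positivity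
      have hs1 : s ≤ 1 / 2 := min_le_right _ _
      have hs2 : s ≤ δ / 2 := min_le_left _ _
      refine ⟨z₀ - (Pi.single j1 (s : ℂ) : Fin n → ℂ), ?_, ?_⟩
      · rw [hmem]
        · intro j hj
          by_cases hjj : j = j1
          · subst hjj
            have : (z₀ - (Pi.single j (s : ℂ) : Fin n → ℂ)) j = ((1 - s : ℝ) : ℂ) := by
              simp [z0j]
            rw [this, Complex.norm_real, Real.norm_of_nonneg (by linarith)]
            linarith
          · have : (z₀ - (Pi.single j1 (s : ℂ) : Fin n → ℂ)) j = 0 := by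
              simp [z0r j hj hjj, Pi.single_eq_of_ne hjj]
            rw [this, norm_zero]
            exact one_pos
        · have : (z₀ - (Pi.single j1 (s : ℂ) : Fin n → ℂ)) o = q0 := by
            simp [z0o, Pi.single_eq_of_ne hne.symm]
          rw [this, sub_self, norm_zero]
          norm_num
      · rw [dist_eq_norm, sub_sub_cancel, Pi.norm_single, Complex.norm_real,
          Real.norm_of_nonneg hs0.le]
        linarith
    · intro h
      have h1 := (hmem z₀ (by rw [z0o, sub_self, norm_zero]; norm_num)).1 h j1 hne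
      rw [z0j, norm_one] at h1
      exact lt_irrefl _ h1
  refine ⟨z₀, hfront, 1 / 10, by norm_num, ?_⟩
  intro z hz hzz p
  rw [(isOpen_Dn o).frontier_eq] at hz
  have hzo : ‖z o - q0‖ < 1 / 10 := by
    have := (norm_le_pi_norm (z - z₀) o).trans_lt hzz
    rwa [Pi.sub_apply, z0o] at this
  have hzr : ∀ j, j ≠ o → j ≠ j1 → ‖z j‖ < 1 / 10 := by
    intro j h1 h2
    have := (norm_le_pi_norm (z - z₀) j).trans_lt hzz
    rwa [Pi.sub_apply, z0r j h1 h2, sub_zero] at this
  have hz1 : ‖z j1‖ ≤ 1 := by
    by_contra hcon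
    push Not at hcon
    have hop : IsOpen {y : Fin n → ℂ | ‖y o - q0‖ < 1 / 5 ∧ 1 < ‖y j1‖} := by
      apply IsOpen.inter
      · exact isOpen_lt ((continuous_apply o).sub continuous_const).norm continuous_const
      · exact isOpen_lt continuous_const (continuous_apply j1).norm
    obtain ⟨y, ⟨hy1, hy2⟩, hyD⟩ := mem_closure_iff.1 hz.1 _ hop ⟨by linarith, hcon⟩
    have := (hmem y hy1).1 hyD j1 hne
    linarith
  by_cases hpo : p.rep o = 0
  · -- the hyperplane contains the direction of the first axis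
    obtain ⟨a, ha, ha2⟩ := pk_val 0
    refine ⟨z + (Pi.single o (pk 0 - z o) : Fin n → ℂ), ?_, a, ?_, ?_⟩
    · show ∑ i, p.rep i * ((z + (Pi.single o (pk 0 - z o) : Fin n → ℂ)) i - z i) = 0
      apply Finset.sum_eq_zero
      intro i _
      by_cases hi : i = o
      · rw [hi, hpo, zero_mul]
      · simp [Pi.single_eq_of_ne hi]
    · have : (z + (Pi.single o (pk 0 - z o) : Fin n → ℂ)) o = pk 0 := by simp
      rw [this]
      exact ha
    · intro j hj
      have : (z + (Pi.single o (pk 0 - z o) : Fin n → ℂ)) j = z j := by simp [Pi.single_eq_of_ne hj]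
      rw [this]
      by_cases hjj : j = j1
      · rw [hjj]
        linarith
      · have := hzr j hj hjj
        linarith
  · set r : ℂ := p.rep j1 / p.rep o with hr
    set s : ℝ := 1 / (10 * (‖r‖ + 1)) with hs
    have hr0 := norm_nonneg r
    have hs0 : 0 < s := by rw [hs]; positivity
    have hsr : s * (‖r‖ + 1) = 1 / 10 := by
      rw [hs]
      field_simp
    have hs1 : s < 1 := by nlinarith
    have hsr2 : s * ‖r‖ < 1 / 10 := by nlinarith
    refine ⟨z + (Pi.single j1 (-(s : ℂ) * z j1) + Pi.single o ((s : ℂ) * z j1 * r) : Fin n → ℂ), ?_, ?_⟩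
    · show ∑ i, p.rep i *
        ((z + (Pi.single j1 (-(s : ℂ) * z j1) + Pi.single o ((s : ℂ) * z j1 * r) : Fin n → ℂ)) i - z i) = 0
      have h1 : ∀ i, p.rep i *
          ((z + (Pi.single j1 (-(s : ℂ) * z j1) + Pi.single o ((s : ℂ) * z j1 * r) : Fin n → ℂ)) i - z i) =
          (if i = j1 then p.rep j1 * (-(s : ℂ) * z j1) else 0) +
            (if i = o then p.rep o * ((s : ℂ) * z j1 * r) else 0) := by
        intro i
        have e1 : (z + (Pi.single j1 (-(s : ℂ) * z j1) +
            Pi.single o ((s : ℂ) * z j1 * r) : Fin n → ℂ)) i - z i =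
            (Pi.single j1 (-(s : ℂ) * z j1) : Fin n → ℂ) i +
              (Pi.single o ((s : ℂ) * z j1 * r) : Fin n → ℂ) i := by
          simp only [Pi.add_apply]
          ring
        rw [e1, Pi.single_apply, Pi.single_apply]
        by_cases h2 : i = j1
        · subst h2
          simp [hne]
        · by_cases h3 : i = o
          · subst h3
            simp [hne.symm]
          · simp [h2, h3]
      simp only [h1]
      rw [Finset.sum_add_distrib, Finset.sum_ite_eq', Finset.sum_ite_eq', if_pos (Finset.mem_univ _),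
        if_pos (Finset.mem_univ _), hr]
      field_simp
      ring
    · have ho : (z + (Pi.single j1 (-(s : ℂ) * z j1) + Pi.single o ((s : ℂ) * z j1 * r) : Fin n → ℂ)) o =
          z o + (s : ℂ) * z j1 * r := by
        simp [Pi.single_eq_of_ne hne.symm]
      rw [hmem]
      · intro j hj
        by_cases hjj : j = j1
        · subst hjj
          have h1 : (z + (Pi.single j (-(s : ℂ) * z j) + Pi.single o ((s : ℂ) * z j * r) : Fin n → ℂ)) j =
              ((1 - s : ℝ) : ℂ) * z j := by
            simp [Pi.single_eq_of_ne hj]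
            ring
          rw [h1, norm_mul, Complex.norm_real, Real.norm_of_nonneg (by linarith)]
          have := norm_nonneg (z j)
          nlinarith
        · have h1 : (z + (Pi.single j1 (-(s : ℂ) * z j1) + Pi.single o ((s : ℂ) * z j1 * r) : Fin n → ℂ)) j =
              z j := by
            simp [Pi.single_eq_of_ne hj, Pi.single_eq_of_ne hjj]
          rw [h1]
          have := hzr j hj hjj
          linarith
      · rw [ho]
        have e1 : z o + (s : ℂ) * z j1 * r - q0 = (z o - q0) + (s : ℂ) * z j1 * r := by ring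
        rw [e1]
        refine (norm_add_le _ _).trans_lt ?_
        have e2 : ‖(s : ℂ) * z j1 * r‖ ≤ s * ‖r‖ := by
          rw [norm_mul, norm_mul, Complex.norm_real, Real.norm_of_nonneg hs0.le]
          have := norm_nonneg (z j1)
          have h3 : s * ‖z j1‖ ≤ s := by nlinarith
          exact mul_le_mul_of_nonneg_right h3 hr0
        linarith

/-- **Result.**  For every `n ≥ 2` there is a bounded domain `D` of `ℂⁿ` such that the set
`Γ_z(D)` of the local supporting complex hyperplanes is connected (in particular nonempty) for every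
boundary point `z`, but `D` is not `ℂ`-convex; in fact

* there is a nonempty open set of pairs `(a, b)`, `b ≠ 0`, for which the complex line
  `{a + t b : t ∈ ℂ}` meets `D` in a set with infinitely many connected components;
* there is a nonempty relatively open set of boundary points `z` such that every complex hyperplane
  through `z` meets `D` (so `D` is not weakly linearly convex). -/
theorem result : ∀ n : ℕ, 2 ≤ n → ∃ D : Set (Fin n → ℂ),
    IsOpen D ∧ IsConnected D ∧ Bornology.IsBounded D ∧
      (∀ z ∈ frontier D, @IsConnected _ (projTopology n) (Gam D z)) ∧ ¬ IsCConvex D ∧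
      (∃ A B : Fin n → ℂ, ∃ ε : ℝ, 0 < ε ∧ ∀ A' B' : Fin n → ℂ, ‖A' - A‖ < ε → ‖B' - B‖ < ε →
        B' ≠ 0 ∧ Infinite (ConnectedComponents ↥(D ∩ {y | ∃ t : ℂ, y = A' + t • B'}))) ∧
      (∃ z₀ ∈ frontier D, ∃ ε : ℝ, 0 < ε ∧ ∀ z ∈ frontier D, ‖z - z₀‖ < ε →
        ∀ p : Projectivization ℂ (Fin n → ℂ), (hyperplane z p ∩ D).Nonempty) := by
  intro n hn
  set o : Fin n := ⟨0, by omega⟩ with ho
  set j1 : Fin n := ⟨1, by omega⟩ with hj1
  have hne : j1 ≠ o := by
    rw [ho, hj1]
    simp
  refine ⟨Dn o, isOpen_Dn o, isConnected_Dn o, isBounded_Dn o, fun z hz => gam_connected hz, ?_,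
    open_set_of_lines hne, not_weakly_linearly_convex hne⟩
  intro hC
  obtain ⟨A, B, ε, hε, hAB⟩ := open_set_of_lines (o := o) hne
  obtain ⟨hB0, hinf⟩ := hAB A B (by simpa using hε) (by simpa using hε)
  rcases hC _ ⟨A, B, hB0, rfl⟩ with h | h
  · obtain ⟨c⟩ := hinf.nonempty
    obtain ⟨y, rfl⟩ := ConnectedComponents.surjective_coe c
    exact eq_empty_iff_forall_notMem.1 h y.1 y.2
  · have : ConnectedSpace ↥(Dn o ∩ {y | ∃ t : ℂ, y = A + t • B}) :=
      isConnected_iff_connectedSpace.1 h.1
    obtain ⟨x, y, hxy⟩ := exists_pair_ne (ConnectedComponents ↥(Dn o ∩ {y | ∃ t : ℂ, y = A + t • B}))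
    exact hxy (Subsingleton.elim _ _)

end Pool.Agent.Results.MP_e79ea5_an.InfinitelyManyPieces
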